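import Pool.Agent.L7h71.UN.Stm

set_option autoImplicit false

/-!
# Project UN, part ADJ: two adjacent blocks can be exchanged
-/

namespace Pool.Agent.L7h24.UN

open Set Filter Function Pool.Agent.L7h71.UN

namespace Adj

variable {r : ℕ} {K V S : Type} {ι : S → Type}

/-- the tuple `x` with the blocks of `l` replaced by `x'` -/
noncomputable def comb (l : List S) (x : ∀ s, ι s → V) (x' : ∀ u : {u // u ∈ l}, ι u.1 → V) :
    ∀ s, ι s → V := fun s => by
  classical
  exact if h : s ∈ l then x' ⟨s, h⟩ else x s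

theorem comb_pos {l : List S} {x : ∀ s, ι s → V} {x' : ∀ u : {u // u ∈ l}, ι u.1 → V} {s : S}
    (h : s ∈ l) : comb l x x' s = x' ⟨s, h⟩ := by
  unfold comb
  simp [h]

theorem comb_neg {l : List S} {x : ∀ s, ι s → V} {x' : ∀ u : {u // u ∈ l}, ι u.1 → V} {s : S}
    (h : s ∉ l) : comb l x x' s = x s := by
  unfold comb
  simp [h]

theorem comb_self (l : List S) (x : ∀ s, ι s → V) : comb l x (fun u => x u.1) = x := by
  funext s
  by_cases h : s ∈ l
  · rw [comb_pos h]
  · rw [comb_neg h]

open Classical in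
theorem comb_update (l : List S) (x : ∀ s, ι s → V) (x' : ∀ u : {u // u ∈ l}, ι u.1 → V)
    (u : {u // u ∈ l}) (y : ι u.1 → V) :
    Function.update (comb l x x') u.1 y = comb l x (Function.update x' u y) := by
  funext s
  by_cases h : s ∈ l
  · rw [comb_pos h]
    by_cases hs : s = u.1
    · subst hs
      rw [update_self]
      exact (update_self u y x').symm
    · rw [update_of_ne hs, comb_pos h, update_of_ne]
      intro e
      exact hs (congrArg Subtype.val e)
  · rw [comb_neg h]
    have hs : s ≠ u.1 := fun e => h (e ▸ u.2)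
    rw [update_of_ne hs, comb_neg h]

theorem upd_inst {A : Type} {B : A → Type} (i1 i2 : DecidableEq A) (f : ∀ a, B a) (a : A)
    (v : B a) : @Function.update A B i1 f a v = @Function.update A B i2 f a v := by
  rw [Subsingleton.elim i1 i2]

theorem itl_comb [Finite K] (p : ∀ s, Ultrafilter (ι s → V)) (f : (∀ s, ι s → V) → K) (l : List S)
    (x : ∀ s, ι s → V) (l' : List {u // u ∈ l}) : ∀ (x' : ∀ u : {u // u ∈ l}, ι u.1 → V),
      itl p f (l'.map Subtype.val) (comb l x x') =
        itl (ι := fun u : {u // u ∈ l} => ι u.1) (fun u => p u.1) (fun x' => f (comb l x x'))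
          l' x' := by
  induction l' with
  | nil =>
    intro x'
    unfold itl
    rfl
  | cons u l' ih =>
    intro x'
    rw [List.map_cons]
    unfold itl
    congr 1
    funext y
    rw [comb_update, upd_inst _ (fun a b => Classical.propDecidable (a = b)), ih]

open Classical in
/-- the term of the extended structure -/
noncomputable def term (z : Fin r → V ⊕ (Σ s, ι s)) (l : List S) (x : ∀ s, ι s → V) :
    Fin r → V ⊕ (Σ u : {u // u ∈ l}, ι u.1) := fun i =>
  if h : ∃ w : Σ u : {u // u ∈ l}, ι u.1, z i = Sum.inr ⟨w.1.1, w.2⟩ then Sum.inr h.choose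
  else Sum.inl (subs z x i)

theorem term_in {z : Fin r → V ⊕ (Σ s, ι s)} {l : List S} {x : ∀ s, ι s → V} {i : Fin r}
    {w : Σ u : {u // u ∈ l}, ι u.1} (h : z i = Sum.inr ⟨w.1.1, w.2⟩) :
    term z l x i = Sum.inr w := by
  have hex : ∃ w : Σ u : {u // u ∈ l}, ι u.1, z i = Sum.inr ⟨w.1.1, w.2⟩ := ⟨w, h⟩
  unfold term
  rw [dif_pos hex]
  congr 1
  have h2 := hex.choose_spec.symm.trans h
  obtain ⟨⟨u, hu⟩, j⟩ := w
  rcases h3 : hex.choose with ⟨⟨u', hu'⟩, j'⟩
  rw [h3] at h2
  simp only [Sum.inr.injEq, Sigma.mk.injEq] at h2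
  obtain ⟨rfl, h4⟩ := h2
  rw [eq_of_heq h4]

theorem term_out {z : Fin r → V ⊕ (Σ s, ι s)} {l : List S} {x : ∀ s, ι s → V} {i : Fin r}
    (h : ¬ ∃ w : Σ u : {u // u ∈ l}, ι u.1, z i = Sum.inr ⟨w.1.1, w.2⟩) :
    term z l x i = Sum.inl (subs z x i) := by
  unfold term
  rw [dif_neg h]

theorem subs_term (z : Fin r → V ⊕ (Σ s, ι s)) (l : List S) (x : ∀ s, ι s → V)
    (x' : ∀ u : {u // u ∈ l}, ι u.1 → V) :
    subs (ι := fun u : {u // u ∈ l} => ι u.1) (term z l x) x' = subs z (comb l x x') := by
  funext i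
  by_cases h : ∃ w : Σ u : {u // u ∈ l}, ι u.1, z i = Sum.inr ⟨w.1.1, w.2⟩
  · obtain ⟨w, hw⟩ := h
    unfold subs
    rw [term_in hw, hw]
    simp only [Sum.elim_inr]
    rw [comb_pos w.1.2]
  · unfold subs
    rw [term_out h]
    simp only [Sum.elim_inl, id]
    unfold subs
    rcases hz : z i with v | w
    · rfl
    · simp only [Sum.elim_inr]
      rw [comb_neg]
      intro hl
      exact h ⟨⟨⟨w.1, hl⟩, w.2⟩, hz⟩

/-- evaluation of the iterated limit in the extended structure -/
theorem eval [Finite K] (hPRO : S_PRO) [Nonempty V] (p : ∀ s, Ultrafilter (ι s → V))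
    (hp : ∀ s, Free (p s)) (M : St r K V) (l : List S) (hl : l.Nodup) :
    ∃ P : Ultrafilter ((Σ u : {u // u ∈ l}, ι u.1) → V), Free P ∧
      ∀ (z : Fin r → V ⊕ (Σ s, ι s)) (x : ∀ s, ι s → V),
        itl p (fun x => M (subs z x)) l x = Ext M P (term z l x) := by
  classical
  have hinj : Injective (fun u : {u // u ∈ l} => l.idxOf u.1) := by
    rintro ⟨u, hu⟩ ⟨v, hv⟩ h
    simp only at h
    exact Subtype.ext ((List.idxOf_inj hu).1 h)
  let _ : LinearOrder {u // u ∈ l} := LinearOrder.lift' (fun u : {u // u ∈ l} => l.idxOf u.1) hinj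
  obtain ⟨P, hP1, hP2⟩ := hPRO V {u // u ∈ l} (fun u => ι u.1) (fun u => p u.1)
  refine ⟨P, hP1 fun u => hp u.1, fun z x => ?_⟩
  have hpw : l.attach.Pairwise (· < ·) := by
    rw [List.pairwise_iff_getElem]
    intro i j hi hj hij
    change l.idxOf (l.attach[i]).1 < l.idxOf (l.attach[j]).1
    rw [List.getElem_attach, List.getElem_attach, hl.idxOf_getElem, hl.idxOf_getElem]
    exact hij
  rw [hP2 r K M (term z l x) l.attach hpw (fun i w _ => List.mem_attach _ _) (fun u => x u.1)]
  have h1 := itl_comb p (fun x => M (subs z x)) l x l.attach (fun u => x u.1)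
  rw [List.attach_map_subtype_val, comb_self] at h1
  rw [h1]
  congr 1
  funext x'
  rw [subs_term]

end Adj

open Adj in
theorem s_ADJ (hPRO : S_PRO) : S_ADJ := by
  classical
  intro r K _ n hC V _ _ M hM S ι _ p hp z s t l hnd hcnt x0
  rw [List.nodup_cons, List.nodup_cons] at hnd
  obtain ⟨hs, ht, hl⟩ := hnd
  rw [List.mem_cons, not_or] at hs
  obtain ⟨hst, hsl⟩ := hs
  obtain ⟨P, hP, hev⟩ := eval hPRO p hp M l hl
  -- the two finite blocks
  let ι' : Type := {j : ι s // ∃ i, z i = Sum.inr ⟨s, j⟩}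
  let κ' : Type := {j : ι t // ∃ i, z i = Sum.inr ⟨t, j⟩}
  have hfin : ∀ u : S, {j : ι u | ∃ i, z i = Sum.inr ⟨u, j⟩}.Finite := by
    intro u
    have h1 : ∀ j ∈ {j : ι u | ∃ i, z i = Sum.inr ⟨u, j⟩},
        (Sum.inr ⟨u, j⟩ : V ⊕ (Σ s, ι s)) ∈ Set.range z := by
      rintro j ⟨i, hi⟩
      exact ⟨i, hi⟩
    refine Set.Finite.of_finite_image (f := fun j => (Sum.inr ⟨u, j⟩ : V ⊕ (Σ s, ι s))) ?_ ?_
    · refine (Set.finite_range z).subset ?_
      rintro _ ⟨j, hj, rfl⟩
      exact h1 j hj
    · intro j _ j' _ h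
      simpa using h
  have : Finite ι' := (hfin s).to_subtype
  have : Finite κ' := (hfin t).to_subtype
  have hcard : Nat.card ι' + Nat.card κ' < n := hcnt
  let W : Type := V ⊕ (Σ u : {u // u ∈ l}, ι u.1)
  let p₁ : Ultrafilter (ι' → W) :=
    ((p s).map fun x => x ∘ (Subtype.val : ι' → ι s)).map fun x i => Sum.inl (x i)
  let p₂ : Ultrafilter (κ' → W) :=
    ((p t).map fun x => x ∘ (Subtype.val : κ' → ι t)).map fun x i => Sum.inl (x i)
  have hp₁ : Free p₁ := ((hp s).map Subtype.val_injective).lift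
  have hp₂ : Free p₂ := ((hp t).map Subtype.val_injective).lift
  -- the term
  let τ : Fin r → W ⊕ (ι' ⊕ κ') := fun i =>
    if h : ∃ j, z i = Sum.inr ⟨s, j⟩ then Sum.inr (Sum.inl ⟨h.choose, i, h.choose_spec⟩)
    else if h : ∃ j, z i = Sum.inr ⟨t, j⟩ then Sum.inr (Sum.inr ⟨h.choose, i, h.choose_spec⟩)
    else Sum.inl (term z l x0 i)
  have hτ : ∀ (y : ι s → V) (y' : ι t → V),
      sub τ (Sum.elim (fun j : ι' => (Sum.inl (y j.1) : W)) fun j : κ' => (Sum.inl (y' j.1) : W)) =
        term z l (Function.update (Function.update x0 s y) t y') := by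
    intro y y'
    funext i
    have hout : ∀ u j, z i = Sum.inr ⟨u, j⟩ → u ∉ l →
        ¬ ∃ w : Σ u : {u // u ∈ l}, ι u.1, z i = Sum.inr ⟨w.1.1, w.2⟩ := by
      rintro u j h hu ⟨w, hw⟩
      rw [h] at hw
      simp only [Sum.inr.injEq, Sigma.mk.injEq] at hw
      exact hu (hw.1 ▸ w.1.2)
    by_cases h : ∃ j, z i = Sum.inr ⟨s, j⟩
    · have e1 : τ i = Sum.inr (Sum.inl ⟨h.choose, i, h.choose_spec⟩) := dif_pos h
      have e2 := h.choose_spec
      unfold sub
      rw [e1, term_out (hout s _ e2 hsl)]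
      simp only [Sum.elim_inr, Sum.elim_inl]
      congr 1
      have e3 : subs z (Function.update (Function.update x0 s y) t y') i =
          Function.update (Function.update x0 s y) t y' s h.choose :=
        congrArg (Sum.elim id fun w : (Σ s, ι s) => Function.update (Function.update x0 s y) t y' w.1 w.2) e2
      rw [e3, update_of_ne hst, update_self]
    · by_cases h' : ∃ j, z i = Sum.inr ⟨t, j⟩
      · have e1 : τ i = Sum.inr (Sum.inr ⟨h'.choose, i, h'.choose_spec⟩) := by
          simp only [τ]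
          rw [dif_neg h, dif_pos h']
        have e2 := h'.choose_spec
        unfold sub
        rw [e1, term_out (hout t _ e2 ht)]
        simp only [Sum.elim_inr]
        congr 1
        have e3 : subs z (Function.update (Function.update x0 s y) t y') i =
            Function.update (Function.update x0 s y) t y' t h'.choose :=
          congrArg (Sum.elim id fun w : (Σ s, ι s) => Function.update (Function.update x0 s y) t y' w.1 w.2) e2
        rw [e3, update_self]
      · have e1 : τ i = Sum.inl (term z l x0 i) := by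
          simp only [τ]
          rw [dif_neg h, dif_neg h']
        unfold sub
        rw [e1]
        simp only [Sum.elim_inl, id]
        by_cases hw : ∃ w : Σ u : {u // u ∈ l}, ι u.1, z i = Sum.inr ⟨w.1.1, w.2⟩
        · obtain ⟨w, hw⟩ := hw
          rw [term_in hw, term_in hw]
        · rw [term_out hw, term_out hw]
          congr 1
          unfold subs
          rcases hz : z i with v | w
          · rfl
          · simp only [Sum.elim_inr]
            have h1 : w.1 ≠ s := by
              intro e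
              obtain ⟨u, j⟩ := w
              dsimp only at e
              subst e
              exact h ⟨j, hz⟩
            have h2 : w.1 ≠ t := by
              intro e
              obtain ⟨u, j⟩ := w
              dsimp only at e
              subst e
              exact h' ⟨j, hz⟩
            rw [update_of_ne h2, update_of_ne h1]
  have key := hC W (Ext M P) (few_ext hM hP) ι' κ' hcard p₁ p₂ hp₁ hp₂ τ
  have e1 : itl p (fun x => M (subs z x)) (s :: t :: l) x0 =
      lim p₁ fun x => lim p₂ fun y => Ext M P (sub τ (Sum.elim x y)) := by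
    unfold itl itl
    rw [show (lim p₁ fun x => lim p₂ fun y => Ext M P (sub τ (Sum.elim x y))) = _ from
      (lim_map _ _ _).trans (lim_map _ _ _)]
    congr 1
    funext y
    rw [show (lim p₂ fun x => _) = _ from (lim_map _ _ _).trans (lim_map _ _ _)]
    congr 1
    funext y'
    rw [hev]
    congr 1
    exact (hτ y y').symm
  have e2 : itl p (fun x => M (subs z x)) (t :: s :: l) x0 =
      lim p₂ fun y => lim p₁ fun x => Ext M P (sub τ (Sum.elim x y)) := by
    unfold itl itl
    rw [show (lim p₂ fun y => lim p₁ fun x => Ext M P (sub τ (Sum.elim x y))) = _ from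
      (lim_map _ _ _).trans (lim_map _ _ _)]
    congr 1
    funext y'
    rw [show (lim p₁ fun x => _) = _ from (lim_map _ _ _).trans (lim_map _ _ _)]
    congr 1
    funext y
    rw [hev]
    congr 1
    rw [Function.update_comm (Ne.symm hst)]
    exact (hτ y y').symm
  rw [e1, e2, key]

end Pool.Agent.L7h24.UN
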