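import Pool.Agent.L7h71.UN.Stm

set_option autoImplicit false

/-!
# Project UN, part PRO: products of types along a linear order
-/

namespace Pool.Agent.L7h24.UN

open Set Filter Function Pool.Agent.L7h71.UN

section gen

variable {V S : Type} {ι : S → Type} (p : ∀ s, Ultrafilter (ι s → V))

open Classical in
/-- iterated `∀ᶠ` along the blocks of a list -/
def E (f : (∀ s, ι s → V) → Prop) : List S → (∀ s, ι s → V) → Prop
  | [], x => f x
  | s :: l, x => ∀ᶠ y in (p s : Filter (ι s → V)), E f l (Function.update x s y)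

/-- `f` depends only on the blocks in `D` -/
def Dep (f : (∀ s, ι s → V) → Prop) (D : Set S) : Prop :=
  ∀ x x' : ∀ s, ι s → V, (∀ s ∈ D, x s = x' s) → (f x ↔ f x')

variable {p}

theorem Dep.mono {f : (∀ s, ι s → V) → Prop} {D D' : Set S} (h : Dep f D) (hD : D ⊆ D') :
    Dep f D' := fun x x' hx => h x x' fun s hs => hx s (hD hs)

theorem Dep.and {f g : (∀ s, ι s → V) → Prop} {D : Set S} (h : Dep f D) (h' : Dep g D) :
    Dep (fun x => f x ∧ g x) D := fun x x' hx => and_congr (h x x' hx) (h' x x' hx)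

theorem E_mono {f g : (∀ s, ι s → V) → Prop} (h : ∀ x, f x → g x) :
    ∀ (l : List S) (x : ∀ s, ι s → V), E p f l x → E p g l x
  | [], x => h x
  | s :: l, x => fun hx => by
    unfold E at hx ⊢
    exact hx.mono fun y hy => E_mono h l _ hy

theorem E_and {f g : (∀ s, ι s → V) → Prop} :
    ∀ (l : List S) (x : ∀ s, ι s → V), E p f l x → E p g l x → E p (fun x => f x ∧ g x) l x
  | [], x => fun h1 h2 => ⟨h1, h2⟩
  | s :: l, x => fun h1 h2 => by
    unfold E at h1 h2 ⊢
    exact (h1.and h2).mono fun y hy => E_and l _ hy.1 hy.2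

theorem E_false : ∀ (l : List S) (x : ∀ s, ι s → V), ¬ E p (fun _ => False) l x
  | [], x => fun h => h
  | s :: l, x => fun h => by
    unfold E at h
    obtain ⟨y, hy⟩ := h.exists
    exact E_false l _ hy

theorem E_congr {f : (∀ s, ι s → V) → Prop} {D : Set S} (h : Dep f D) :
    ∀ (l : List S) (x x' : ∀ s, ι s → V), (∀ s ∈ D, s ∉ l → x s = x' s) →
      (E p f l x ↔ E p f l x')
  | [], x, x' => fun hx => h x x' fun s hs => hx s hs (by simp)
  | s :: l, x, x' => fun hx => by
    classical
    unfold E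
    refine eventually_congr (Eventually.of_forall fun y => E_congr h l _ _ fun t ht htl => ?_)
    by_cases hts : t = s
    · subst hts
      simp
    · rw [update_of_ne hts, update_of_ne hts]
      exact hx t ht (by simp [hts, htl])

open Classical in
theorem E_filter {f : (∀ s, ι s → V) → Prop} {D : Set S} (h : Dep f D) :
    ∀ (l : List S) (x : ∀ s, ι s → V), E p f l x ↔ E p f (l.filter fun s => decide (s ∈ D)) x
  | [], x => Iff.rfl
  | s :: l, x => by
    by_cases hs : s ∈ D
    · rw [List.filter_cons_of_pos (by simpa using hs)]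
      unfold E
      exact eventually_congr (Eventually.of_forall fun y => E_filter h l _)
    · rw [List.filter_cons_of_neg (by simpa using hs), ← E_filter h l x]
      conv_lhs => unfold E
      have h1 : ∀ y, (E p f l (Function.update x s y) ↔ E p f l x) := fun y =>
        E_congr h l _ _ fun t ht _ => by
          have hts : t ≠ s := fun e => hs (e ▸ ht)
          rw [update_of_ne hts]
      rw [eventually_congr (Eventually.of_forall h1)]
      simp

open Classical in
/-- the iterated limit is the value attained for most tuples -/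
theorem E_itl {K : Type} [Finite K] (f : (∀ s, ι s → V) → K) :
    ∀ (l : List S) (x : ∀ s, ι s → V), E p (fun x' => f x' = itl p f l x) l x
  | [], x => by
    unfold E itl
    rfl
  | s :: l, x => by
    unfold E
    have h1 := lim_spec (p s) fun y => itl p f l (Function.update x s y)
    refine h1.mono fun y hy => ?_
    have h2 := E_itl f l (Function.update x s y)
    have h3 : itl p f (s :: l) x = itl p f l (Function.update x s y) := by
      conv_lhs => unfold itl
      exact hy.symm
    rw [h3]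
    exact h2

theorem E_one {f : (∀ s, ι s → V) → Prop} {s : S}
    (h : ∀ᶠ y in (p s : Filter (ι s → V)), ∀ x : (∀ s, ι s → V), x s = y → f x)
    (x0 : ∀ s, ι s → V) : E p f [s] x0 := by
  classical
  unfold E E
  exact h.mono fun y hy => hy _ (update_self _ _ _)

theorem E_two {f : (∀ s, ι s → V) → Prop} {s t : S} (hst : s ≠ t)
    (h : ∀ᶠ y in (p s : Filter (ι s → V)), ∀ᶠ y' in (p t : Filter (ι t → V)),
      ∀ x : (∀ s, ι s → V), x s = y → x t = y' → f x)
    (x0 : ∀ s, ι s → V) : E p f [s, t] x0 := by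
  classical
  unfold E E E
  exact h.mono fun y hy => hy.mono fun y' hy' => hy' _
    (by rw [update_of_ne hst, update_self]) (update_self _ _ _)

end gen

section lin

variable {V S : Type} [LinearOrder S] {ι : S → Type} {p : ∀ s, Ultrafilter (ι s → V)}

theorem E_lists {f : (∀ s, ι s → V) → Prop} {D : Set S} (h : Dep f D) {l l' : List S}
    (hl : l.Pairwise (· < ·)) (hl' : l'.Pairwise (· < ·)) (hD : ∀ s ∈ D, s ∈ l)
    (hD' : ∀ s ∈ D, s ∈ l') (x x' : ∀ s, ι s → V) (hx : E p f l x) : E p f l' x' := by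
  classical
  have h1 : (l.filter fun s => decide (s ∈ D)) = l'.filter fun s => decide (s ∈ D) := by
    refine List.Perm.eq_of_pairwise' (r := (· < ·)) (hl.filter _) (hl'.filter _) ?_
    refine (List.perm_ext_iff_of_nodup ((hl.imp fun h => ne_of_lt h).filter _)
      ((hl'.imp fun h => ne_of_lt h).filter _)).2 fun s => ?_
    simp only [List.mem_filter, decide_eq_true_eq]
    exact ⟨fun h => ⟨hD' s h.2, h.2⟩, fun h => ⟨hD s h.2, h.2⟩⟩
  rw [E_congr h l' x' x fun s hs hsl => absurd (hD' s hs) hsl, E_filter h, ← h1, ← E_filter h]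
  exact hx

/-- the filter of the sets which contain almost all tuples -/
def Fil (p : ∀ s, Ultrafilter (ι s → V)) : Filter (∀ s, ι s → V) where
  sets := {A | ∃ l : List S, l.Pairwise (· < ·) ∧ ∃ f : (∀ s, ι s → V) → Prop,
    (∀ x, f x → x ∈ A) ∧ Dep f {s | s ∈ l} ∧ ∀ x0, E p f l x0}
  univ_sets := ⟨[], List.Pairwise.nil, fun _ => True, fun _ _ => mem_univ _, fun _ _ _ => Iff.rfl,
    fun _ => trivial⟩
  sets_of_superset := by
    rintro A B ⟨l, hl, f, h1, h2, h3⟩ hAB
    exact ⟨l, hl, f, fun x hx => hAB (h1 x hx), h2, h3⟩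
  inter_sets := by
    classical
    rintro A B ⟨l, hl, f, h1, h2, h3⟩ ⟨l', hl', f', h1', h2', h3'⟩
    let L : List S := (l ++ l').toFinset.sort (· ≤ ·)
    have hL : L.Pairwise (· < ·) := (Finset.sortedLT_sort _).pairwise
    have hm : ∀ s, s ∈ L ↔ s ∈ l ∨ s ∈ l' := by
      intro s
      simp [L]
    refine ⟨L, hL, fun x => f x ∧ f' x, fun x hx => ⟨h1 x hx.1, h1' x hx.2⟩, ?_, fun x0 => ?_⟩
    · exact (h2.mono fun s hs => (hm s).2 (Or.inl hs)).and
        (h2'.mono fun s hs => (hm s).2 (Or.inr hs))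
    · exact E_and L x0 (E_lists h2 hl hL (fun s hs => hs) (fun s hs => (hm s).2 (Or.inl hs)) x0 x0
        (h3 x0)) (E_lists h2' hl' hL (fun s hs => hs) (fun s hs => (hm s).2 (Or.inr hs)) x0 x0
        (h3' x0))

theorem mem_Fil {A : Set (∀ s, ι s → V)} : A ∈ Fil p ↔ ∃ l : List S, l.Pairwise (· < ·) ∧
    ∃ f : (∀ s, ι s → V) → Prop, (∀ x, f x → x ∈ A) ∧ Dep f {s | s ∈ l} ∧ ∀ x0, E p f l x0 :=
  Iff.rfl

instance [Nonempty V] : (Fil p).NeBot := by
  rw [neBot_iff, Ne, ← empty_mem_iff_bot, mem_Fil]
  rintro ⟨l, -, f, h1, -, h3⟩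
  have x0 : ∀ s, ι s → V := fun s i => Classical.arbitrary V
  exact E_false l x0 (E_mono (fun x hx => h1 x hx) l x0 (h3 x0))

end lin

theorem s_PRO : S_PRO := by
  classical
  intro V S _ _ ι p
  let P' : Ultrafilter (∀ s, ι s → V) := Ultrafilter.of (Fil p)
  have hP' : ∀ A ∈ Fil p, A ∈ (P' : Filter (∀ s, ι s → V)) := fun A hA => Ultrafilter.of_le _ hA
  refine ⟨P'.map fun x w => x w.1 w.2, fun hp => ⟨fun w a => ?_, fun w w' hw => ?_⟩, ?_⟩
  · rw [Ultrafilter.coe_map, eventually_map]
    refine hP' _ (mem_Fil.2 ⟨[w.1], by simp, fun x => x w.1 w.2 ≠ a, fun x hx => hx, ?_, ?_⟩)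
    · intro x x' hx
      simp only
      rw [hx w.1 (by simp)]
    · exact E_one (((hp w.1).1 w.2 a).mono fun y hy x hx => by rwa [hx])
  · rw [Ultrafilter.coe_map, eventually_map]
    have key : ∀ w w' : Σ s, ι s, w.1 < w'.1 → ∀ᶠ x : (∀ s, ι s → V) in (P' : Filter _),
        x w.1 w.2 ≠ x w'.1 w'.2 := by
      intro w w' h
      refine hP' _ (mem_Fil.2 ⟨[w.1, w'.1], by simpa using h, fun x => x w.1 w.2 ≠ x w'.1 w'.2,
        fun x hx => hx, ?_, ?_⟩)
      · intro x x' hx
        simp only
        rw [hx w.1 (by simp), hx w'.1 (by simp)]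
      · exact E_two h.ne (Eventually.of_forall fun y => ((hp w'.1).1 w'.2 (y w.2)).mono
          fun y' hy' x hx hx' => by rw [hx, hx']; exact hy'.symm)
    rcases lt_trichotomy w.1 w'.1 with h | h | h
    · exact key w w' h
    · obtain ⟨s, i⟩ := w
      obtain ⟨t, j⟩ := w'
      dsimp only at h
      subst h
      have hij : i ≠ j := fun e => hw (by rw [e])
      refine hP' _ (mem_Fil.2 ⟨[s], by simp, fun x => x s i ≠ x s j, fun x hx => hx, ?_, ?_⟩)
      · intro x x' hx
        simp only
        rw [hx s (by simp)]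
      · exact E_one (((hp s).2 i j hij).mono fun y hy x hx => by rwa [hx])
    · exact (key w' w h).mono fun x hx => hx.symm
  · intro r K _ M z l hl hz x0
    have hdep : ∀ x x' : ∀ s, ι s → V, (∀ s ∈ {s | s ∈ l}, x s = x' s) → subs z x = subs z x' := by
      intro x x' hx
      funext i
      unfold subs
      rcases h : z i with v | w
      · rfl
      · simp only [Sum.elim_inr]
        rw [hx w.1 (hz i w h)]
    refine lim_eq ?_
    rw [Ultrafilter.coe_map, eventually_map]
    refine hP' _ (mem_Fil.2 ⟨l, hl, fun x => M (subs z x) = itl p (fun x => M (subs z x)) l x0,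
      fun x hx => hx, ?_, ?_⟩)
    · intro x x' hx
      simp only
      rw [hdep x x' hx]
    · intro x1
      have hD : Dep (fun x => M (subs z x) = itl p (fun x => M (subs z x)) l x0) {s | s ∈ l} := by
        intro x x' hx
        simp only
        rw [hdep x x' hx]
      exact (E_congr hD l x0 x1 fun s hs hsl => absurd hs hsl).1 (E_itl _ l x0)

end Pool.Agent.L7h24.UN
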